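import Pool.Agent.Lib_helper91.TX.ASM
import Pool.Agent.Lib_helper91.TC.CF

/-!
# Full answer (proof) to Q1 of MP_f97b3c_nt: the sums of `S_k(12)`
-/

namespace Pool.Agent.Results.MP_f97b3c_nt.QuestionOne

open Finset

/-- `S_n(x) = ∑_{k=0}^n C(n,k)^4 x^k` -/
def S (n : ℕ) (x : ℤ) : ℤ := ∑ k ∈ range (n + 1), ((n.choose k : ℕ) : ℤ) ^ 4 * x ^ k

/-- parts (a), (b) for every odd prime `p`, and part (c) for every `n ≥ 1` -/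
theorem result :
    (∀ p : ℕ, p.Prime → p ≠ 2 →
      -- (a), `p ≡ 1 (mod 12)`
      (∀ x y : ℤ, p % 12 = 1 → (p : ℤ) = x ^ 2 + y ^ 2 → (4 : ℤ) ∣ x - 1 →
        (∑ k ∈ range p, S k 12) ≡ (if (3 : ℤ) ∣ x then -1 else 1) * (4 * x ^ 2 - 2 * (p : ℤ)) [ZMOD (p : ℤ) ^ 2]) ∧
      -- (a), `p ≡ 5 (mod 12)`
      (∀ x y : ℤ, p % 12 = 5 → (p : ℤ) = x ^ 2 + y ^ 2 → (4 : ℤ) ∣ x - 1 →
        (∑ k ∈ range p, S k 12) ≡ jacobiSym (x * y) 3 * (4 * x * y) [ZMOD (p : ℤ) ^ 2]) ∧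
      -- (a), `p ≡ 3 (mod 4)`
      (p % 4 = 3 → (∑ k ∈ range p, S k 12) ≡ 0 [ZMOD (p : ℤ) ^ 2]) ∧
      -- (b)
      (∑ k ∈ range p, (4 * (k : ℤ) + 3) * S k 12) ≡ (p : ℤ) * (1 + 2 * jacobiSym 3 p) [ZMOD (p : ℤ) ^ 2]) ∧
    -- (c)
    (∀ n : ℕ, 1 ≤ n → (n : ℤ) ∣ ∑ k ∈ range n, (4 * (k : ℤ) + 3) * S k 12) := by
  refine ⟨fun p hp h2 => ?_, fun n _ => Pool.Agent.Lib_helper91.TC.CF12 n⟩
  have h2' : 2 < p := by
    have := hp.two_le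
    omega
  refine ⟨fun x y h hxy hx => ?_, fun x y h hxy hx => ?_, fun h => ?_, ?_⟩
  · exact (Int.modEq_iff_dvd.2
      ((Pool.Agent.Lib_helper91.TX.ASM_all p hp h2' x y hxy).q1a h (by omega))).symm
  · exact (Int.modEq_iff_dvd.2
      ((Pool.Agent.Lib_helper91.TX.ASM_all p hp h2' x y hxy).q1b h (by omega))).symm
  · exact Int.modEq_zero_iff_dvd.2 (Pool.Agent.Lib_helper91.TN.base_a p hp h).1
  · exact (Int.modEq_iff_dvd.2 (Pool.Agent.Lib_helper91.TN.base_b1 p hp h2')).symm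

end Pool.Agent.Results.MP_f97b3c_nt.QuestionOne
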