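import Pool.Agent.Lib_helper91.TX.ASM
import Pool.Agent.Lib_helper91.TC.CF

/-!
# Full answer (proof) to Q2 of MP_f97b3c_nt: the sums of `S_k(-20)`
-/

namespace Pool.Agent.Results.MP_f97b3c_nt.QuestionTwo

open Finset

/-- `S_n(x) = ∑_{k=0}^n C(n,k)^4 x^k` -/
def S (n : ℕ) (x : ℤ) : ℤ := ∑ k ∈ range (n + 1), ((n.choose k : ℕ) : ℤ) ^ 4 * x ^ k

/-- parts (a), (b) for every odd prime `p`, and part (c) for every `n ≥ 1` -/
theorem result :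
    (∀ p : ℕ, p.Prime → p ≠ 2 →
      -- (a), `(-1/p) = (p/5) = 1`
      (∀ x y : ℤ, jacobiSym (-1) p = 1 → jacobiSym p 5 = 1 → (p : ℤ) = x ^ 2 + y ^ 2 → Odd x →
        (∑ k ∈ range p, S k (-20)) ≡ (if (5 : ℤ) ∣ x then -1 else 1) * (4 * x ^ 2 - 2 * (p : ℤ)) [ZMOD (p : ℤ) ^ 2]) ∧
      -- (a), `(-1/p) = 1`, `(p/5) = -1`
      (∀ x y : ℤ, jacobiSym (-1) p = 1 → jacobiSym p 5 = -1 → (p : ℤ) = x ^ 2 + y ^ 2 → Odd x → (5 : ℤ) ∣ x * y - 1 →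
        (∑ k ∈ range p, S k (-20)) ≡ jacobiSym x 5 * (4 * x * y) [ZMOD (p : ℤ) ^ 2]) ∧
      -- (a), `p ≡ 3 (mod 4)`
      (p % 4 = 3 → (∑ k ∈ range p, S k (-20)) ≡ 0 [ZMOD (p : ℤ) ^ 2]) ∧
      -- (b)
      (∑ k ∈ range p, (6 * (k : ℤ) + 5) * S k (-20))
        ≡ (p : ℤ) * jacobiSym (-1) p * (2 + 3 * jacobiSym (-5) p) [ZMOD (p : ℤ) ^ 2]) ∧
    -- (c)
    (∀ n : ℕ, 1 ≤ n → (n : ℤ) ∣ ∑ k ∈ range n, (6 * (k : ℤ) + 5) * S k (-20)) := by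
  refine ⟨fun p hp h2 => ?_, fun n _ => Pool.Agent.Lib_helper91.TC.CF20 n⟩
  have h2' : 2 < p := by
    have := hp.two_le
    omega
  have hodd : p % 2 = 1 := hp.eq_two_or_odd.resolve_left h2
  have h4 : jacobiSym (-1) p = 1 → p % 4 = 1 := by
    intro h
    by_contra h5
    have h3 : p % 4 = 3 := by omega
    have h6 : jacobiSym (-1) p = -1 := by
      rw [jacobiSym.at_neg_one (Nat.odd_iff.2 hodd)]
      exact ZMod.χ₄_nat_three_mod_four h3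
    rw [h] at h6
    exact absurd h6 (by norm_num)
  refine ⟨fun x y h h5 hxy hx => ?_, fun x y h h5 hxy hx h1 => ?_, fun h => ?_, ?_⟩
  · exact (Int.modEq_iff_dvd.2
      ((Pool.Agent.Lib_helper91.TX.ASM_all p hp h2' x y hxy).q2a (h4 h) h5 hx)).symm
  · exact (Int.modEq_iff_dvd.2
      ((Pool.Agent.Lib_helper91.TX.ASM_all p hp h2' x y hxy).q2b (h4 h) h5 hx h1)).symm
  · exact Int.modEq_zero_iff_dvd.2 (Pool.Agent.Lib_helper91.TN.base_a p hp h).2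
  · exact (Int.modEq_iff_dvd.2 (Pool.Agent.Lib_helper91.TN.base_b2 p hp h2')).symm

end Pool.Agent.Results.MP_f97b3c_nt.QuestionTwo
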